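import Pool.Agent.helper52.HY.Spec

/-!
# hy:KAP: the Schwarz factor of the power map
-/

set_option autoImplicit false

open Complex Metric Set Filter Topology MeasureTheory
open Pool.Agent.helper98.ILF Pool.Agent.helper16.Multibrot

noncomputable section

namespace HY

theorem KAP_pair (n j : ℕ) (s : ℝ) (hj : j < n) :
    Real.exp (-s) ^ (2 * j) + Real.exp (-s) ^ (2 * (n - 1 - j)) ≤
      2 * Real.exp (-s) ^ (n - 1) * Real.exp ((n : ℝ) ^ 2 * s ^ 2 / 2) := by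
  obtain ⟨m, rfl⟩ : ∃ m, n = j + 1 + m := ⟨n - (j + 1), by omega⟩
  have e1 : j + 1 + m - 1 - j = m := by omega
  have e2 : j + 1 + m - 1 = j + m := by omega
  rw [e1, e2]
  rw [← Real.exp_nat_mul, ← Real.exp_nat_mul, ← Real.exp_nat_mul]
  set u : ℝ := ((m : ℝ) - j) * s with hu
  have h1 : Real.exp (((2 * j : ℕ) : ℝ) * -s) = Real.exp (((j + m : ℕ) : ℝ) * -s) * Real.exp u := by
    rw [← Real.exp_add]; congr 1; rw [hu]; push_cast; ring
  have h2 : Real.exp (((2 * m : ℕ) : ℝ) * -s) = Real.exp (((j + m : ℕ) : ℝ) * -s) * Real.exp (-u) := by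
    rw [← Real.exp_add]; congr 1; rw [hu]; push_cast; ring
  rw [h1, h2]
  have h3 : Real.exp u + Real.exp (-u) = 2 * Real.cosh u := by
    rw [Real.cosh_eq]; ring
  have h4 : Real.cosh u ≤ Real.exp (u ^ 2 / 2) := Real.cosh_le_exp_half_sq u
  have h5 : u ^ 2 / 2 ≤ (((j + 1 + m : ℕ) : ℝ)) ^ 2 * s ^ 2 / 2 := by
    rw [hu]
    have hj0 : (0 : ℝ) ≤ j := Nat.cast_nonneg j
    have hm0 : (0 : ℝ) ≤ m := Nat.cast_nonneg m
    have : ((m : ℝ) - j) ^ 2 ≤ (((j + 1 + m : ℕ) : ℝ)) ^ 2 := by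
      push_cast
      nlinarith
    have hs : 0 ≤ s ^ 2 := sq_nonneg s
    have := mul_le_mul_of_nonneg_right this hs
    calc (((m : ℝ) - j) * s) ^ 2 / 2 = ((m : ℝ) - j) ^ 2 * s ^ 2 / 2 := by ring
      _ ≤ _ := by linarith
  have h6 : Real.exp (u ^ 2 / 2) ≤ Real.exp ((((j + 1 + m : ℕ) : ℝ)) ^ 2 * s ^ 2 / 2) := Real.exp_le_exp.2 h5
  have h7 : 0 < Real.exp (((j + m : ℕ) : ℝ) * -s) := Real.exp_pos _
  calc Real.exp (((j + m : ℕ) : ℝ) * -s) * Real.exp u + Real.exp (((j + m : ℕ) : ℝ) * -s) * Real.exp (-u)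
      = Real.exp (((j + m : ℕ) : ℝ) * -s) * (Real.exp u + Real.exp (-u)) := by ring
    _ = 2 * Real.exp (((j + m : ℕ) : ℝ) * -s) * Real.cosh u := by rw [h3]; ring
    _ ≤ 2 * Real.exp (((j + m : ℕ) : ℝ) * -s) * Real.exp ((((j + 1 + m : ℕ) : ℝ)) ^ 2 * s ^ 2 / 2) :=
        mul_le_mul_of_nonneg_left (h4.trans h6) (by positivity)

theorem KAP : KAP_stmt := by
  intro n t hn ht ht1
  have ht0 : 0 < t := by linarith
  set s : ℝ := -Real.log t with hs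
  have hts : t = Real.exp (-s) := by rw [hs, neg_neg, Real.exp_log ht0]
  have hs0 : 0 ≤ s := by rw [hs]; linarith [Real.log_nonpos ht0.le ht1.le]
  have hs1 : s ≤ 2 * (1 - t) := by
    have h1 : Real.log (1 / t) ≤ 1 / t - 1 := Real.log_le_sub_one_of_pos (by positivity)
    rw [Real.log_div one_ne_zero ht0.ne', Real.log_one, zero_sub] at h1
    have h2 : 1 / t - 1 ≤ 2 * (1 - t) := by
      rw [div_sub_one ht0.ne', div_le_iff₀ ht0]
      nlinarith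
    linarith
  have hE : Real.exp ((n : ℝ) ^ 2 * s ^ 2 / 2) ≤ Real.exp (2 * n ^ 2 * (1 - t) ^ 2) := by
    apply Real.exp_le_exp.2
    have h1 : s ^ 2 ≤ (2 * (1 - t)) ^ 2 := by
      apply pow_le_pow_left₀ hs0 hs1
    have h2 : (n : ℝ) ^ 2 * s ^ 2 ≤ (n : ℝ) ^ 2 * (2 * (1 - t)) ^ 2 :=
      mul_le_mul_of_nonneg_left h1 (by positivity)
    nlinarith
  have hsum : ∑ j ∈ Finset.range n, t ^ (2 * j) ≤ n * t ^ (n - 1) * Real.exp ((n : ℝ) ^ 2 * s ^ 2 / 2) := by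
    have hrefl : ∑ j ∈ Finset.range n, t ^ (2 * (n - 1 - j)) = ∑ j ∈ Finset.range n, t ^ (2 * j) :=
      Finset.sum_range_reflect (fun j => t ^ (2 * j)) n
    have h2 : 2 * ∑ j ∈ Finset.range n, t ^ (2 * j) =
        ∑ j ∈ Finset.range n, (t ^ (2 * j) + t ^ (2 * (n - 1 - j))) := by
      rw [Finset.sum_add_distrib, hrefl]; ring
    have h3 : ∑ j ∈ Finset.range n, (t ^ (2 * j) + t ^ (2 * (n - 1 - j))) ≤
        ∑ j ∈ Finset.range n, (2 * t ^ (n - 1) * Real.exp ((n : ℝ) ^ 2 * s ^ 2 / 2)) := by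
      apply Finset.sum_le_sum
      intro j hj
      rw [hts]
      exact KAP_pair n j s (Finset.mem_range.1 hj)
    rw [Finset.sum_const, Finset.card_range, nsmul_eq_mul] at h3
    nlinarith
  have hgeom : 1 - t ^ (2 * n) = (1 - t ^ 2) * ∑ j ∈ Finset.range n, t ^ (2 * j) := by
    have h1 : ∑ j ∈ Finset.range n, t ^ (2 * j) = ∑ j ∈ Finset.range n, (t ^ 2) ^ j := by
      apply Finset.sum_congr rfl
      intro j _
      rw [pow_mul]
    rw [h1, pow_mul]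
    exact (mul_neg_geom_sum (t ^ 2) n).symm
  rw [hgeom]
  have h12 : 0 ≤ 1 - t ^ 2 := by nlinarith
  have hnt : 0 ≤ (n : ℝ) * t ^ (n - 1) := by positivity
  calc (1 - t ^ 2) * ∑ j ∈ Finset.range n, t ^ (2 * j)
      ≤ (1 - t ^ 2) * (n * t ^ (n - 1) * Real.exp ((n : ℝ) ^ 2 * s ^ 2 / 2)) :=
        mul_le_mul_of_nonneg_left hsum h12
    _ ≤ (1 - t ^ 2) * (n * t ^ (n - 1) * Real.exp (2 * n ^ 2 * (1 - t) ^ 2)) :=
        mul_le_mul_of_nonneg_left (mul_le_mul_of_nonneg_left hE hnt) h12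
    _ = Real.exp (2 * n ^ 2 * (1 - t) ^ 2) * (n * t ^ (n - 1) * (1 - t ^ 2)) := by ring

end HY
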